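import Mathlib

/-!
Weights and interlacing: for real numbers `a 0 ≥ … ≥ a m` the polynomials
`∑ p i ∏_{j ≠ i} (t - a j)` with `p i ≥ 0`, `∑ p i = 1` are exactly the polynomials `∏ (t - r l)`
with `a (l+1) ≤ r l ≤ a l`.
-/

set_option autoImplicit false

open Finset Filter Topology

namespace Pool.Agent.CRO

variable {m : ℕ}

/-- `∑ p i ∏_{j ≠ i} (t - a j)` -/
noncomputable def wp (a p : Fin (m + 1) → ℝ) (t : ℝ) : ℝ :=
  ∑ i, p i * ∏ l : Fin m, (t - a (i.succAbove l))

/-- `r` interlaces `a` -/
def Inter (a : Fin (m + 1) → ℝ) (r : Fin m → ℝ) : Prop :=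
  ∀ l : Fin m, a l.succ ≤ r l ∧ r l ≤ a l.castSucc

lemma succAbove_of_lt {i : Fin (m + 1)} {l : Fin m} (h : (l : ℕ) < i) :
    i.succAbove l = l.castSucc := by
  rw [Fin.succAbove, if_pos]
  exact h

lemma succAbove_of_le {i : Fin (m + 1)} {l : Fin m} (h : (i : ℕ) ≤ l) :
    i.succAbove l = l.succ := by
  rw [Fin.succAbove, if_neg]
  exact not_lt.2 h

/-- the polynomial version -/
noncomputable def wpoly (a p : Fin (m + 1) → ℝ) : Polynomial ℝ :=
  ∑ i, Polynomial.C (p i) * ∏ l : Fin m, (Polynomial.X - Polynomial.C (a (i.succAbove l)))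

lemma wpoly_eval (a p : Fin (m + 1) → ℝ) (t : ℝ) : (wpoly a p).eval t = wp a p t := by
  unfold wpoly wp
  rw [Polynomial.eval_finsetSum]
  refine Finset.sum_congr rfl fun i _ => ?_
  rw [Polynomial.eval_mul, Polynomial.eval_C, Polynomial.eval_prod]
  simp

lemma prod_natDegree (f : Fin m → ℝ) :
    (∏ l : Fin m, (Polynomial.X - Polynomial.C (f l))).natDegree = m := by
  rw [Polynomial.natDegree_prod_of_monic _ _ (fun _ _ => Polynomial.monic_X_sub_C _)]
  simp

lemma prod_monic (f : Fin m → ℝ) :
    (∏ l : Fin m, (Polynomial.X - Polynomial.C (f l))).Monic :=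
  Polynomial.monic_prod_of_monic _ _ (fun _ _ => Polynomial.monic_X_sub_C _)

lemma wpoly_natDegree_le (a p : Fin (m + 1) → ℝ) : (wpoly a p).natDegree ≤ m := by
  unfold wpoly
  refine Polynomial.natDegree_sum_le_of_forall_le _ _ fun i _ => ?_
  refine (Polynomial.natDegree_C_mul_le _ _).trans ?_
  rw [prod_natDegree]

lemma wpoly_coeff (a p : Fin (m + 1) → ℝ) : (wpoly a p).coeff m = ∑ i, p i := by
  unfold wpoly
  rw [Polynomial.finsetSum_coeff]
  refine Finset.sum_congr rfl fun i _ => ?_
  rw [Polynomial.coeff_C_mul]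
  have h := (prod_monic (fun l => a (i.succAbove l))).coeff_natDegree
  rw [prod_natDegree] at h
  rw [h, mul_one]

lemma wp_node (a p : Fin (m + 1) → ℝ) (i : Fin (m + 1)) :
    wp a p (a i) = p i * ∏ l : Fin m, (a i - a (i.succAbove l)) := by
  unfold wp
  rw [Finset.sum_eq_single i]
  · intro k _ hk
    obtain ⟨l, hl⟩ := Fin.exists_succAbove_eq (x := i) (y := k) hk.symm
    rw [Finset.prod_eq_zero (Finset.mem_univ l), mul_zero]
    rw [hl, sub_self]
  · simp

/-- a polynomial of degree at most `m` with `m + 1` zeros vanishes -/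
lemma eq_of_nodes {P Q : Polynomial ℝ} {a : Fin (m + 1) → ℝ} (ha : Function.Injective a)
    (hP : P.natDegree ≤ m) (hQ : Q.natDegree ≤ m) (h : ∀ i, P.eval (a i) = Q.eval (a i)) :
    P = Q := by
  apply Polynomial.eq_of_degrees_lt_of_eval_index_eq (s := Finset.univ) (v := a)
    (fun i _ j _ hij => ha hij)
  · refine lt_of_le_of_lt Polynomial.degree_le_natDegree ?_
    rw [Finset.card_univ, Fintype.card_fin]
    exact_mod_cast Nat.lt_succ_of_le hP
  · refine lt_of_le_of_lt Polynomial.degree_le_natDegree ?_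
    rw [Finset.card_univ, Fintype.card_fin]
    exact_mod_cast Nat.lt_succ_of_le hQ
  · intro i _
    exact h i

/-- weights of an interlacing sequence, distinct points -/
lemma weights_strict {a : Fin (m + 1) → ℝ} (ha : StrictAnti a) {r : Fin m → ℝ}
    (hr : Inter a r) :
    ∃ p ∈ stdSimplex ℝ (Fin (m + 1)), ∀ t, wp a p t = ∏ l, (t - r l) := by
  set p : Fin (m + 1) → ℝ := fun i => ∏ l : Fin m, ((a i - r l) / (a i - a (i.succAbove l)))
    with hp
  have hne : ∀ i l, a i - a (Fin.succAbove i l) ≠ 0 := by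
    intro i l h
    have := ha.injective (sub_eq_zero.1 h)
    exact Fin.succAbove_ne i l this.symm
  have hp0 : ∀ i, 0 ≤ p i := by
    intro i
    refine Finset.prod_nonneg fun l _ => ?_
    rcases lt_or_ge (l : ℕ) (i : ℕ) with h | h
    · rw [succAbove_of_lt h]
      apply div_nonneg_of_nonpos
      · have h1 := (hr l).1
        have h2 : a i ≤ a l.succ := ha.antitone (by
          rw [Fin.le_def]; simpa using h)
        linarith
      · have h2 : a i ≤ a l.castSucc := ha.antitone (by
          rw [Fin.le_def]; simpa using h.le)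
        linarith
    · rw [succAbove_of_le h]
      apply div_nonneg
      · have h1 := (hr l).2
        have h2 : a l.castSucc ≤ a i := ha.antitone (by
          rw [Fin.le_def]; simpa using h)
        linarith
      · have h2 : a l.succ ≤ a i := ha.antitone (by
          rw [Fin.le_def]; simpa using h.trans (Nat.le_succ _))
        linarith
  have hpoly : wpoly a p = ∏ l, (Polynomial.X - Polynomial.C (r l)) := by
    apply eq_of_nodes ha.injective (wpoly_natDegree_le a p) (prod_natDegree r).le
    intro i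
    rw [wpoly_eval, wp_node, Polynomial.eval_prod, hp]
    simp only [Polynomial.eval_sub, Polynomial.eval_X, Polynomial.eval_C]
    rw [← Finset.prod_mul_distrib]
    exact Finset.prod_congr rfl fun l _ => div_mul_cancel₀ _ (hne i l)
  refine ⟨p, ⟨hp0, ?_⟩, fun t => ?_⟩
  · rw [← wpoly_coeff a p, hpoly]
    have h := (prod_monic r).coeff_natDegree
    rwa [prod_natDegree] at h
  · rw [← wpoly_eval, hpoly, Polynomial.eval_prod]
    simp

/-- zeros of the weighted polynomial, distinct points and positive weights -/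
lemma zeros_strict {a : Fin (m + 1) → ℝ} (ha : StrictAnti a) {p : Fin (m + 1) → ℝ}
    (hp : ∀ i, 0 < p i) (hs : ∑ i, p i = 1) :
    ∃ r : Fin m → ℝ, Inter a r ∧ ∀ t, wp a p t = ∏ l, (t - r l) := by
  have hcont : Continuous (wp a p) := by
    unfold wp
    fun_prop
  have hsign : ∀ l : Fin m, wp a p (a l.succ) * wp a p (a l.castSucc) < 0 := by
    intro l
    rw [wp_node, wp_node]
    have h1 : (∏ k : Fin m, (a l.succ - a (l.succ.succAbove k))) *
        (∏ k : Fin m, (a l.castSucc - a (l.castSucc.succAbove k))) < 0 := by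
      rw [← Finset.prod_mul_distrib, ← Finset.mul_prod_erase _ _ (Finset.mem_univ l)]
      apply mul_neg_of_neg_of_pos
      · rw [succAbove_of_lt (by simp), succAbove_of_le (by simp)]
        have h2 : a l.succ < a l.castSucc := ha (by rw [Fin.lt_def]; simp)
        nlinarith
      · refine Finset.prod_pos fun k hk => ?_
        have hkl : k ≠ l := Finset.ne_of_mem_erase hk
        have hkl' : (k : ℕ) ≠ l := fun h => hkl (Fin.ext h)
        rcases lt_or_gt_of_ne hkl' with h | h
        · rw [succAbove_of_lt (by simp; omega), succAbove_of_lt (by simpa using h)]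
          have h2 : a l.succ < a k.castSucc := ha (by rw [Fin.lt_def]; simp; omega)
          have h3 : a l.castSucc < a k.castSucc := ha (by rw [Fin.lt_def]; simpa using h)
          nlinarith
        · rw [succAbove_of_le (by simp; omega), succAbove_of_le (by simp; omega)]
          have h2 : a k.succ < a l.succ := ha (by rw [Fin.lt_def]; simp; omega)
          have h3 : a k.succ < a l.castSucc := ha (by rw [Fin.lt_def]; simp; omega)
          nlinarith
    have h2 := mul_pos (hp l.succ) (hp l.castSucc)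
    nlinarith
  have hroot : ∀ l : Fin m, ∃ x, a l.succ < x ∧ x < a l.castSucc ∧ wp a p x = 0 := by
    intro l
    have hlt : a l.succ < a l.castSucc := ha (by rw [Fin.lt_def]; simp)
    have hs := hsign l
    rcases lt_or_gt_of_ne (left_ne_zero_of_mul hs.ne) with h | h
    · have h' : 0 < wp a p (a l.castSucc) := by
        by_contra hcon
        rw [not_lt] at hcon
        nlinarith
      obtain ⟨x, hx, hx2⟩ := intermediate_value_Ioo hlt.le hcont.continuousOn
        (show (0 : ℝ) ∈ Set.Ioo _ _ from ⟨h, h'⟩)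
      exact ⟨x, hx.1, hx.2, hx2⟩
    · have h' : wp a p (a l.castSucc) < 0 := by
        by_contra hcon
        rw [not_lt] at hcon
        nlinarith
      obtain ⟨x, hx, hx2⟩ := intermediate_value_Ioo' hlt.le hcont.continuousOn
        (show (0 : ℝ) ∈ Set.Ioo _ _ from ⟨h', h⟩)
      exact ⟨x, hx.1, hx.2, hx2⟩
  choose r hr1 hr2 hr3 using hroot
  refine ⟨r, fun l => ⟨(hr1 l).le, (hr2 l).le⟩, ?_⟩
  have hranti : StrictAnti r := by
    intro k l hkl
    have h1 : a l.castSucc ≤ a k.succ := ha.antitone (by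
      rw [Fin.le_def]
      have : (k : ℕ) < l := hkl
      simpa using this)
    linarith [hr1 k, hr2 l]
  have hpoly : wpoly a p = ∏ l, (Polynomial.X - Polynomial.C (r l)) := by
    have hdeg : (wpoly a p - ∏ l, (Polynomial.X - Polynomial.C (r l))).degree < m := by
      rw [Polynomial.degree_lt_iff_coeff_zero]
      intro N hN
      rcases hN.eq_or_lt with h | h
      · have h1 := (prod_monic r).coeff_natDegree
        rw [prod_natDegree] at h1
        rw [← h, Polynomial.coeff_sub, wpoly_coeff, hs, h1, sub_self]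
      · rw [Polynomial.coeff_sub, Polynomial.coeff_eq_zero_of_natDegree_lt
          (lt_of_le_of_lt (wpoly_natDegree_le a p) h), Polynomial.coeff_eq_zero_of_natDegree_lt
          (lt_of_le_of_lt (prod_natDegree r).le h), sub_self]
    rw [← sub_eq_zero]
    apply Polynomial.eq_zero_of_degree_lt_of_eval_index_eq_zero (s := Finset.univ) (v := r)
      (fun i _ j _ hij => hranti.injective hij)
    · rw [Finset.card_univ, Fintype.card_fin]; exact hdeg
    · intro l _
      rw [Polynomial.eval_sub, wpoly_eval, hr3, Polynomial.eval_prod,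
        Finset.prod_eq_zero (Finset.mem_univ l)]
      · simp
      · simp
  intro t
  rw [← wpoly_eval, hpoly, Polynomial.eval_prod]
  simp

/-- separated points near `a` -/
noncomputable def sepa (a : Fin (m + 1) → ℝ) (k : ℕ) (i : Fin (m + 1)) : ℝ :=
  a i + ((m : ℝ) - (i : ℕ)) * (1 / ((k : ℝ) + 1))

lemma sepa_anti {a : Fin (m + 1) → ℝ} (ha : Antitone a) (k : ℕ) : StrictAnti (sepa a k) := by
  intro i j hij
  unfold sepa
  have h1 := ha hij.le
  have h2 : ((i : ℕ) : ℝ) < ((j : ℕ) : ℝ) := by exact_mod_cast hij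
  have h3 : (0 : ℝ) < 1 / ((k : ℝ) + 1) := by positivity
  nlinarith

lemma sepa_tendsto (a : Fin (m + 1) → ℝ) (i : Fin (m + 1)) :
    Tendsto (fun k => sepa a k i) atTop (𝓝 (a i)) := by
  unfold sepa
  have h := (tendsto_one_div_add_atTop_nhds_zero_nat (𝕜 := ℝ)).const_mul ((m : ℝ) - (i : ℕ))
  have h2 := h.const_add (a i)
  simpa using h2

theorem weights_of_inter {a : Fin (m + 1) → ℝ} (ha : Antitone a) {r : Fin m → ℝ}
    (hr : Inter a r) :
    ∃ p ∈ stdSimplex ℝ (Fin (m + 1)), ∀ t, wp a p t = ∏ l, (t - r l) := by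
  set rk : ℕ → Fin m → ℝ := fun k l => r l + ((m : ℝ) - (l : ℕ) - 1 / 2) * (1 / ((k : ℝ) + 1))
    with hrk
  have hI : ∀ k, Inter (sepa a k) (rk k) := by
    intro k l
    have h3 : (0 : ℝ) < 1 / ((k : ℝ) + 1) := by positivity
    obtain ⟨h1, h2⟩ := hr l
    constructor
    · simp only [sepa, hrk, Fin.val_succ]
      push_cast
      nlinarith
    · simp only [sepa, hrk, Fin.val_castSucc]
      nlinarith
  choose p hp1 hp2 using fun k => weights_strict (sepa_anti ha k) (hI k)
  obtain ⟨q, hq, φ, hφ, hlim⟩ := (isCompact_stdSimplex ℝ (Fin (m + 1))).tendsto_subseq hp1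
  refine ⟨q, hq, fun t => ?_⟩
  have hL : Tendsto (fun k => wp (sepa a (φ k)) (p (φ k)) t) atTop (𝓝 (wp a q t)) := by
    unfold wp
    refine tendsto_finsetSum _ fun i _ => ?_
    refine Tendsto.mul ((tendsto_pi_nhds.1 hlim) i) ?_
    refine tendsto_finsetProd _ fun l _ => ?_
    exact tendsto_const_nhds.sub ((sepa_tendsto a _).comp hφ.tendsto_atTop)
  have hR : Tendsto (fun k => ∏ l, (t - rk (φ k) l)) atTop (𝓝 (∏ l, (t - r l))) := by
    refine tendsto_finsetProd _ fun l _ => ?_
    refine tendsto_const_nhds.sub ?_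
    have h := (tendsto_one_div_add_atTop_nhds_zero_nat (𝕜 := ℝ)).const_mul
      ((m : ℝ) - (l : ℕ) - 1 / 2)
    have h2 := (h.const_add (r l)).comp hφ.tendsto_atTop
    simpa [hrk, Function.comp_def] using h2
  have heq : (fun k => wp (sepa a (φ k)) (p (φ k)) t) = fun k => ∏ l, (t - rk (φ k) l) := by
    funext k
    exact hp2 (φ k) t
  rw [heq] at hL
  exact tendsto_nhds_unique hL hR

theorem inter_of_weights {a : Fin (m + 1) → ℝ} (ha : Antitone a) {p : Fin (m + 1) → ℝ}
    (hp : p ∈ stdSimplex ℝ (Fin (m + 1))) :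
    ∃ r : Fin m → ℝ, Inter a r ∧ ∀ t, wp a p t = ∏ l, (t - r l) := by
  set e : ℕ → ℝ := fun k => 1 / ((k : ℝ) + 1) with he
  have he0 : ∀ k, 0 < e k := fun k => by rw [he]; positivity
  have he1 : ∀ k, e k ≤ 1 := by
    intro k
    rw [he]
    simp only
    rw [div_le_one (by positivity)]
    have : (0 : ℝ) ≤ k := by positivity
    linarith
  have hm : (0 : ℝ) < (m : ℝ) + 1 := by positivity
  set pk : ℕ → Fin (m + 1) → ℝ := fun k i => (1 - e k) * p i + e k * (1 / ((m : ℝ) + 1)) with hpk
  have hpos : ∀ k i, 0 < pk k i := by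
    intro k i
    have h1 := hp.1 i
    have h2 := he0 k
    have h3 := he1 k
    have h4 : (0 : ℝ) < 1 / ((m : ℝ) + 1) := by positivity
    have h5 : 0 ≤ (1 - e k) * p i := mul_nonneg (by linarith) h1
    have h6 : 0 < e k * (1 / ((m : ℝ) + 1)) := mul_pos h2 h4
    simp only [hpk]
    linarith
  have hsum : ∀ k, ∑ i, pk k i = 1 := by
    intro k
    simp only [hpk]
    rw [Finset.sum_add_distrib, ← Finset.mul_sum, hp.2, Finset.sum_const, Finset.card_univ,
      Fintype.card_fin, nsmul_eq_mul]
    push_cast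
    field_simp
    ring
  choose r hr1 hr2 using fun k => zeros_strict (sepa_anti ha k) (hpos k) (hsum k)
  -- all `r k` are in a box
  set K : Set (Fin m → ℝ) := Set.pi Set.univ
    (fun l : Fin m => Set.Icc (a l.succ) (a l.castSucc + m)) with hK
  have hKc : IsCompact K := isCompact_univ_pi fun l => isCompact_Icc
  have hmem : ∀ k, r k ∈ K := by
    intro k
    rw [hK, Set.mem_univ_pi]
    intro l
    obtain ⟨h1, h2⟩ := hr1 k l
    have h3 := he0 k
    have h4 := he1 k
    have hl : ((l : ℕ) : ℝ) + 1 ≤ m := by exact_mod_cast l.2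
    have hl0 : (0 : ℝ) ≤ ((l : ℕ) : ℝ) := by positivity
    simp only [sepa, Fin.val_succ, Fin.val_castSucc] at h1 h2
    push_cast at h1
    have h3' : (1 : ℝ) / ((k : ℝ) + 1) = e k := rfl
    rw [h3'] at h1 h2
    constructor
    · nlinarith
    · nlinarith
  obtain ⟨q, hq, φ, hφ, hlim⟩ := hKc.tendsto_subseq hmem
  have hlim' := tendsto_pi_nhds.1 hlim
  refine ⟨q, fun l => ⟨?_, ?_⟩, fun t => ?_⟩
  · exact le_of_tendsto_of_tendsto' ((sepa_tendsto a l.succ).comp hφ.tendsto_atTop) (hlim' l)
      fun k => (hr1 (φ k) l).1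
  · exact le_of_tendsto_of_tendsto' (hlim' l) ((sepa_tendsto a l.castSucc).comp hφ.tendsto_atTop)
      fun k => (hr1 (φ k) l).2
  · have hee : Tendsto (fun k => e (φ k)) atTop (𝓝 0) :=
      (tendsto_one_div_add_atTop_nhds_zero_nat (𝕜 := ℝ)).comp hφ.tendsto_atTop
    have hpt : ∀ i, Tendsto (fun k => pk (φ k) i) atTop (𝓝 (p i)) := by
      intro i
      have h := ((tendsto_const_nhds (x := (1 : ℝ))).sub hee).mul_const (p i)
      have h2 := h.add (hee.mul_const (1 / ((m : ℝ) + 1)))
      simpa [hpk] using h2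
    have hL : Tendsto (fun k => wp (sepa a (φ k)) (pk (φ k)) t) atTop (𝓝 (wp a p t)) := by
      unfold wp
      refine tendsto_finsetSum _ fun i _ => ?_
      refine Tendsto.mul (hpt i) ?_
      refine tendsto_finsetProd _ fun l _ => ?_
      exact tendsto_const_nhds.sub ((sepa_tendsto a _).comp hφ.tendsto_atTop)
    have hR : Tendsto (fun k => ∏ l, (t - r (φ k) l)) atTop (𝓝 (∏ l, (t - q l))) := by
      refine tendsto_finsetProd _ fun l _ => ?_
      exact tendsto_const_nhds.sub (hlim' l)
    have heq : (fun k => wp (sepa a (φ k)) (pk (φ k)) t) = fun k => ∏ l, (t - r (φ k) l) := by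
      funext k
      exact hr2 (φ k) t
    rw [heq] at hL
    exact tendsto_nhds_unique hL hR

end Pool.Agent.CRO
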