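import Pool.Agent.Helper69.Cart.Defs
import Pool.Agent.CRO.Inter

/-!
The characteristic polynomial of `Tᴴ T` for `T = D + i (β₀ + β v vᴴ)`.
-/

set_option autoImplicit false

open Finset Matrix

namespace Pool.Agent.CRO

open Pool.Agent.Helper44.Cart Pool.Agent.Helper69.Cart

variable {n : ℕ}

/-- `β₀ + β v vᴴ` -/
noncomputable def rk (v : Fin n → ℂ) (β₀ β : ℝ) : Matrix (Fin n) (Fin n) ℂ :=
  (β₀ : ℂ) • (1 : Matrix (Fin n) (Fin n) ℂ) + (β : ℂ) • vecMulVec v (star v)

/-- `T = D + i (β₀ + β v vᴴ)` -/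
noncomputable def TT (a : Fin n → ℝ) (v : Fin n → ℂ) (β₀ β : ℝ) : Matrix (Fin n) (Fin n) ℂ :=
  dg a + Complex.I • rk v β₀ β

lemma rk_herm (v : Fin n → ℂ) (β₀ β : ℝ) : (rk v β₀ β).IsHermitian := by
  unfold rk
  ext i j
  simp only [conjTranspose_apply, Matrix.add_apply, Matrix.smul_apply, vecMulVec_apply,
    Pi.star_apply, smul_eq_mul, star_add, star_mul', star_star]
  rw [Matrix.one_apply, Matrix.one_apply]
  have h1 : star (β₀ : ℂ) = β₀ := Complex.conj_ofReal β₀
  have h2 : star (β : ℂ) = β := Complex.conj_ofReal β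
  rw [h1, h2]
  by_cases h : i = j
  · subst h; simp only [if_true, star_one]; ring
  · rw [if_neg h, if_neg (fun h' => h h'.symm)]
    simp only [star_zero]; ring

lemma gram (a : Fin n → ℝ) (v : Fin n → ℂ) (β₀ β : ℝ) (hv : ∑ i, star (v i) * v i = 1) :
    (TT a v β₀ β)ᴴ * TT a v β₀ β = diagonal (fun i => ((a i : ℂ) ^ 2 + (β₀ : ℂ) ^ 2)) +
      (2 * (β₀ : ℂ) * β + (β : ℂ) ^ 2) • vecMulVec v (star v) +
      (Complex.I * β) • (vecMulVec (fun i => (a i : ℂ) * v i) (star v) -
        vecMulVec v (fun i => star (v i) * a i)) := by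
  have hT : (TT a v β₀ β)ᴴ = dg a - Complex.I • rk v β₀ β := by
    unfold TT
    rw [conjTranspose_add, conjTranspose_smul, (dg_isHermitian a), (rk_herm v β₀ β)]
    simp [sub_eq_add_neg]
  rw [hT]
  unfold TT rk dg
  ext i j
  rw [Matrix.mul_apply]
  simp only [Matrix.add_apply, Matrix.sub_apply, Matrix.smul_apply, vecMulVec_apply, Pi.star_apply,
    smul_eq_mul, Matrix.one_apply, Matrix.diagonal_apply]
  have hI : Complex.I * Complex.I = -1 := Complex.I_mul_I
  -- expand the sum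
  have hsum : ∀ k, ((if i = k then (a i : ℂ) else 0) -
      Complex.I * ((β₀ : ℂ) * (if i = k then 1 else 0) + (β : ℂ) * (v i * star (v k)))) *
      ((if k = j then (a k : ℂ) else 0) +
      Complex.I * ((β₀ : ℂ) * (if k = j then 1 else 0) + (β : ℂ) * (v k * star (v j)))) =
      (if i = k then ((a i : ℂ) - Complex.I * β₀) * ((if k = j then (a k : ℂ) + Complex.I * β₀ else 0) +
        Complex.I * (β : ℂ) * (v k * star (v j))) else 0) +
      (if k = j then - Complex.I * (β : ℂ) * (v i * star (v k)) * ((a k : ℂ) + Complex.I * β₀) else 0)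
      + (β : ℂ) ^ 2 * (v i * star (v j)) * (star (v k) * v k) := by
    intro k
    by_cases h1 : i = k <;> by_cases h2 : k = j
    · subst h1; subst h2; simp only [if_true]; linear_combination
        (-((β : ℂ) ^ 2) * (v i * star (v i)) * (v i * star (v i))) * hI
    · subst h1; simp only [h2, if_true, if_false]; linear_combination
        (-((β : ℂ) ^ 2) * (v i * star (v i)) * (v i * star (v j))) * hI
    · subst h2; simp only [h1, if_true, if_false]; linear_combination
        (-((β : ℂ) ^ 2) * (v i * star (v k)) * (v k * star (v k))) * hI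
    · simp only [h1, h2, if_false]; linear_combination
        (-((β : ℂ) ^ 2) * (v i * star (v k)) * (v k * star (v j))) * hI
  rw [Finset.sum_congr rfl fun k _ => hsum k, Finset.sum_add_distrib, Finset.sum_add_distrib,
    ← Finset.mul_sum, hv, Finset.sum_ite_eq, Finset.sum_ite_eq', if_pos (Finset.mem_univ _),
    if_pos (Finset.mem_univ _)]
  by_cases h : i = j
  · subst h
    simp only [if_true]
    linear_combination (-(β₀ : ℂ) ^ 2 - 2 * (β₀ : ℂ) * β * (v i * star (v i))) * hI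
  · simp only [h, if_false]
    linear_combination (- 2 * (β₀ : ℂ) * β * (v i * star (v j))) * hI

/-- the determinant of the resolvent matrix, for `t` off the spectrum -/
lemma det_formula (a : Fin n → ℝ) (v : Fin n → ℂ) (β₀ β : ℝ) (hv : ∑ i, star (v i) * v i = 1)
    (t : ℂ) (ht : ∀ i, t ^ 2 - (a i : ℂ) ^ 2 ≠ 0) :
    ((t ^ 2 + (β₀ : ℂ) ^ 2) • (1 : Matrix (Fin n) (Fin n) ℂ) -
      (TT a v β₀ β)ᴴ * TT a v β₀ β).det =
    (∏ i, (t ^ 2 - (a i : ℂ) ^ 2)) *
      (1 - 2 * (β₀ : ℂ) * β * (∑ i, star (v i) * v i / (t ^ 2 - (a i : ℂ) ^ 2)) +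
        (β : ℂ) ^ 2 * ((∑ i, star (v i) * v i * a i / (t ^ 2 - (a i : ℂ) ^ 2)) ^ 2 -
          t ^ 2 * (∑ i, star (v i) * v i / (t ^ 2 - (a i : ℂ) ^ 2)) ^ 2)) := by
  set h0 : ℂ := ∑ i, star (v i) * v i / (t ^ 2 - (a i : ℂ) ^ 2) with hh0
  set h1 : ℂ := ∑ i, star (v i) * v i * a i / (t ^ 2 - (a i : ℂ) ^ 2) with hh1
  set h2 : ℂ := ∑ i, star (v i) * v i * (a i : ℂ) ^ 2 / (t ^ 2 - (a i : ℂ) ^ 2) with hh2
  have hh : h2 = t ^ 2 * h0 - 1 := by
    rw [hh2, hh0, ← hv, Finset.mul_sum, ← Finset.sum_sub_distrib]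
    refine Finset.sum_congr rfl fun i _ => ?_
    field_simp [ht i]
    ring
  set E : Matrix (Fin n) (Fin n) ℂ := diagonal (fun i => t ^ 2 - (a i : ℂ) ^ 2) with hE
  have hdet : E.det = ∏ i, (t ^ 2 - (a i : ℂ) ^ 2) := by rw [hE, det_diagonal]
  have hU : IsUnit E.det := by
    rw [hdet, isUnit_iff_ne_zero]
    exact Finset.prod_ne_zero_iff.2 fun i _ => ht i
  have hEinv : E⁻¹ = diagonal (fun i => (t ^ 2 - (a i : ℂ) ^ 2)⁻¹) := by
    apply Matrix.inv_eq_left_inv
    rw [hE, diagonal_mul_diagonal, ← diagonal_one]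
    congr 1
    funext i
    exact inv_mul_cancel₀ (ht i)
  set c : ℂ := 2 * (β₀ : ℂ) * β + (β : ℂ) ^ 2 with hc
  set U : Matrix (Fin n) (Fin 2) ℂ := of fun i => ![v i, (a i : ℂ) * v i] with hUd
  set V : Matrix (Fin 2) (Fin n) ℂ := of ![fun j => -c * star (v j) + Complex.I * β * (star (v j) * a j),
    fun j => -(Complex.I * β) * star (v j)] with hVd
  have hsplit : (t ^ 2 + (β₀ : ℂ) ^ 2) • (1 : Matrix (Fin n) (Fin n) ℂ) -
      (TT a v β₀ β)ᴴ * TT a v β₀ β = E + U * V := by
    rw [gram a v β₀ β hv]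
    ext i j
    rw [Matrix.add_apply, Matrix.mul_apply, Fin.sum_univ_two]
    simp only [Matrix.sub_apply, Matrix.add_apply, Matrix.smul_apply, vecMulVec_apply,
      Pi.star_apply, smul_eq_mul, Matrix.one_apply, Matrix.diagonal_apply, hE, hUd, hVd,
      Matrix.of_apply, Matrix.cons_val_zero, Matrix.cons_val_one]
    by_cases h : i = j
    · subst h; simp only [if_true]; ring
    · simp only [h, if_false]; ring
  rw [hsplit, Matrix.det_add_mul U V hU, hdet]
  congr 1
  have hent : ∀ (f g : Fin n → ℂ), ∑ k, (∑ l, g l * E⁻¹ l k) * f k =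
      ∑ k, g k * f k / (t ^ 2 - (a k : ℂ) ^ 2) := by
    intro f g
    refine Finset.sum_congr rfl fun k _ => ?_
    rw [hEinv, Finset.sum_eq_single k]
    · rw [diagonal_apply_eq]; field_simp
    · intro l _ hl
      rw [diagonal_apply_ne _ hl, mul_zero]
    · simp
  rw [Matrix.det_fin_two]
  have e00 : (V * E⁻¹ * U) 0 0 = -c * h0 + Complex.I * β * h1 := by
    rw [Matrix.mul_apply]
    simp only [Matrix.mul_apply]
    rw [hent (fun k => U k 0) (fun l => V 0 l), hh0, hh1, Finset.mul_sum, Finset.mul_sum,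
      ← Finset.sum_add_distrib]
    refine Finset.sum_congr rfl fun k _ => ?_
    simp only [hUd, hVd, Matrix.of_apply, Matrix.cons_val_zero, Matrix.cons_val_one]
    ring
  have e01 : (V * E⁻¹ * U) 0 1 = -c * h1 + Complex.I * β * h2 := by
    rw [Matrix.mul_apply]
    simp only [Matrix.mul_apply]
    rw [hent (fun k => U k 1) (fun l => V 0 l), hh2, hh1, Finset.mul_sum, Finset.mul_sum,
      ← Finset.sum_add_distrib]
    refine Finset.sum_congr rfl fun k _ => ?_
    simp only [hUd, hVd, Matrix.of_apply, Matrix.cons_val_zero, Matrix.cons_val_one]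
    ring
  have e10 : (V * E⁻¹ * U) 1 0 = -(Complex.I * β) * h0 := by
    rw [Matrix.mul_apply]
    simp only [Matrix.mul_apply]
    rw [hent (fun k => U k 0) (fun l => V 1 l), hh0, Finset.mul_sum]
    refine Finset.sum_congr rfl fun k _ => ?_
    simp only [hUd, hVd, Matrix.of_apply, Matrix.cons_val_zero, Matrix.cons_val_one]
    ring
  have e11 : (V * E⁻¹ * U) 1 1 = -(Complex.I * β) * h1 := by
    rw [Matrix.mul_apply]
    simp only [Matrix.mul_apply]
    rw [hent (fun k => U k 1) (fun l => V 1 l), hh1, Finset.mul_sum]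
    refine Finset.sum_congr rfl fun k _ => ?_
    simp only [hUd, hVd, Matrix.of_apply, Matrix.cons_val_zero, Matrix.cons_val_one]
    ring
  simp only [Matrix.add_apply, Matrix.one_apply, e00, e01, e10, e11]
  simp only [Fin.isValue, if_true, zero_ne_one, one_ne_zero, if_false]
  rw [hh, hc]
  have hI : Complex.I * Complex.I = -1 := Complex.I_mul_I
  linear_combination (-(β : ℂ) ^ 2 * h1 ^ 2 + (β : ℂ) ^ 2 * h0 * (t ^ 2 * h0 - 1)) * hI

end Pool.Agent.CRO
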