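import Pool.Agent.CRO.Main

/-!
Reduction to `D + i (β₀ + β v vᴴ)` and the final statement.
-/

set_option autoImplicit false

open Finset Matrix

namespace Pool.Agent.CRO

open Pool.Agent.Helper44.Cart Pool.Agent.Helper69.Cart

variable {m : ℕ}

/-- the spectrum `(b₁, b₂, …, b₂)` -/
def bb (b₁ b₂ : ℝ) : Fin (m + 1) → ℝ := Fin.cons b₁ (fun _ => b₂)

lemma conj_rk (U : Matrix (Fin (m + 1)) (Fin (m + 1)) ℂ) (hU : U * Uᴴ = 1) (b₁ b₂ : ℝ) :
    U * dg (bb b₁ b₂) * Uᴴ = rk (fun i => U i 0) b₂ (b₁ - b₂) := by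
  ext i j
  have h1 : (U * Uᴴ) i j = (1 : Matrix (Fin (m + 1)) (Fin (m + 1)) ℂ) i j := by rw [hU]
  rw [Matrix.mul_apply] at h1
  rw [Matrix.mul_apply]
  unfold rk dg
  simp only [Matrix.add_apply, Matrix.smul_apply, vecMulVec_apply, Pi.star_apply, smul_eq_mul,
    Matrix.mul_diagonal, conjTranspose_apply] at h1 ⊢
  rw [← h1, Fin.sum_univ_succ, Fin.sum_univ_succ, mul_add, Finset.mul_sum]
  have h2 : (bb (m := m) b₁ b₂ 0 : ℝ) = b₁ := rfl
  have h3 : ∀ k : Fin m, (bb (m := m) b₁ b₂ k.succ : ℝ) = b₂ := fun _ => rfl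
  simp only [h2, h3]
  push_cast
  have h4 : ∀ k : Fin m, U i k.succ * (b₂ : ℂ) * star (U j k.succ) =
      (b₂ : ℂ) * (U i k.succ * star (U j k.succ)) := fun k => by ring
  simp only [h4]
  ring

lemma rk_charpoly (v : Fin (m + 1) → ℂ) (hv : ∑ i, star (v i) * v i = 1) (b₁ b₂ : ℝ) :
    (rk v b₂ (b₁ - b₂)).charpoly =
      ∏ i, (Polynomial.X - Polynomial.C ((bb (m := m) b₁ b₂ i : ℝ) : ℂ)) := by
  apply Polynomial.eq_of_infinite_eval_eq
  have hinf : ({(b₂ : ℂ)}ᶜ : Set ℂ).Infinite := (Set.finite_singleton (b₂ : ℂ)).infinite_compl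
  refine hinf.mono fun z hz => ?_
  have hz' : z - b₂ ≠ 0 := sub_ne_zero.2 hz
  show _ = _
  rw [Matrix.eval_charpoly, Matrix.scalar_apply, ← Matrix.smul_one_eq_diagonal,
    Polynomial.eval_prod]
  have h1 : z • (1 : Matrix (Fin (m + 1)) (Fin (m + 1)) ℂ) - rk v b₂ (b₁ - b₂) =
      (z - b₂) • (1 : Matrix (Fin (m + 1)) (Fin (m + 1)) ℂ) +
      (of fun i (_ : Fin 1) => -((b₁ : ℂ) - b₂) * v i) * (of fun (_ : Fin 1) j => star (v j)) := by
    ext i j
    rw [Matrix.add_apply, Matrix.mul_apply, Fin.sum_univ_one]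
    unfold rk
    simp only [Matrix.sub_apply, Matrix.add_apply, Matrix.smul_apply, vecMulVec_apply,
      Pi.star_apply, smul_eq_mul, Matrix.of_apply]
    push_cast
    ring
  have hdet : ((z - b₂) • (1 : Matrix (Fin (m + 1)) (Fin (m + 1)) ℂ)).det =
      (z - b₂) ^ (m + 1) := by
    rw [Matrix.det_smul, Matrix.det_one, mul_one, Fintype.card_fin]
  have hU : IsUnit ((z - b₂) • (1 : Matrix (Fin (m + 1)) (Fin (m + 1)) ℂ)).det := by
    rw [hdet, isUnit_iff_ne_zero]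
    exact pow_ne_zero _ hz'
  have hinv : ((z - b₂) • (1 : Matrix (Fin (m + 1)) (Fin (m + 1)) ℂ))⁻¹ =
      (z - b₂)⁻¹ • (1 : Matrix (Fin (m + 1)) (Fin (m + 1)) ℂ) := by
    apply Matrix.inv_eq_left_inv
    rw [Matrix.smul_mul, Matrix.mul_smul, Matrix.one_mul, smul_smul, inv_mul_cancel₀ hz',
      one_smul]
  rw [h1, Matrix.det_add_mul _ _ hU, hdet, hinv, Matrix.det_fin_one, Fin.prod_univ_succ]
  have h2 : (bb (m := m) b₁ b₂ 0 : ℝ) = b₁ := rfl
  have h3 : ∀ k : Fin m, (bb (m := m) b₁ b₂ k.succ : ℝ) = b₂ := fun _ => rfl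
  simp only [h2, h3, Polynomial.eval_sub, Polynomial.eval_X, Polynomial.eval_C]
  rw [Finset.prod_const, Finset.card_univ, Fintype.card_fin]
  have h4 : ((of fun (_ : Fin 1) j => star (v j)) * (z - (b₂ : ℂ))⁻¹ •
      (1 : Matrix (Fin (m + 1)) (Fin (m + 1)) ℂ) *
      (of fun i (_ : Fin 1) => -((b₁ : ℂ) - b₂) * v i)) 0 0 =
      -((b₁ : ℂ) - b₂) * (z - b₂)⁻¹ := by
    rw [Matrix.mul_smul, Matrix.mul_one, Matrix.smul_mul, Matrix.smul_apply, Matrix.mul_apply]
    simp only [Matrix.of_apply, smul_eq_mul]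
    have h5 : ∀ x, star (v x) * (-((b₁ : ℂ) - b₂) * v x) =
        -((b₁ : ℂ) - b₂) * (star (v x) * v x) := fun x => by ring
    simp only [h5]
    rw [← Finset.mul_sum, hv]
    ring
  rw [Matrix.add_apply, h4, Matrix.one_apply_eq]
  rw [pow_succ]
  field_simp
  ring

lemma realizable_iff (a : Fin (m + 1) → ℝ) (b₁ b₂ : ℝ) (s : Fin (m + 1) → ℝ) :
    Realizable a (bb b₁ b₂) s ↔ (∀ i, 0 ≤ s i) ∧ ∃ v : Fin (m + 1) → ℂ,
      ∑ i, star (v i) * v i = 1 ∧ ((TT a v b₂ (b₁ - b₂))ᴴ * TT a v b₂ (b₁ - b₂)).charpoly =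
        ∏ i, (Polynomial.X - Polynomial.C ((s i ^ 2 : ℝ) : ℂ)) := by
  constructor
  · rintro ⟨A, B, hA, hB, hs, hT⟩
    obtain ⟨V, hV, rfl⟩ := (hasEigenvalues_iff A a).1 hA
    obtain ⟨W, hW, rfl⟩ := (hasEigenvalues_iff B _).1 hB
    set U := Vᴴ * W with hU
    have hVh : IsU Vᴴ := ⟨by rw [conjTranspose_conjTranspose]; exact hV.2,
      by rw [conjTranspose_conjTranspose]; exact hV.1⟩
    have hUU : IsU U := hVh.mul hW
    have hVU : V * U = W := by
      rw [hU, ← Matrix.mul_assoc, hV.2, Matrix.one_mul]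
    refine ⟨hs, fun i => U i 0, ?_, ?_⟩
    · have h1 : (Uᴴ * U) 0 0 = 1 := by rw [hUU.1, Matrix.one_apply_eq]
      rw [Matrix.mul_apply] at h1
      simpa [conjTranspose_apply] using h1
    · have h1 : V * dg a * Vᴴ + Complex.I • (W * dg (bb b₁ b₂) * Wᴴ) =
          V * TT a (fun i => U i 0) b₂ (b₁ - b₂) * Vᴴ := by
        unfold TT
        rw [← conj_rk U hUU.2 b₁ b₂, ← hVU, conjTranspose_mul]
        rw [Matrix.mul_add, Matrix.add_mul, Matrix.mul_smul, Matrix.smul_mul]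
        congr 2
        simp only [Matrix.mul_assoc]
      have h2 := hT.2
      rw [h1] at h2
      set T := TT a (fun i => U i 0) b₂ (b₁ - b₂) with hTd
      have h3 : (V * T * Vᴴ)ᴴ * (V * T * Vᴴ) = V * (Tᴴ * T) * Vᴴ := by
        rw [conjTranspose_mul, conjTranspose_mul, conjTranspose_conjTranspose]
        calc V * (Tᴴ * Vᴴ) * (V * T * Vᴴ) = V * Tᴴ * (Vᴴ * V) * T * Vᴴ := by
              simp only [Matrix.mul_assoc]
          _ = V * (Tᴴ * T) * Vᴴ := by rw [hV.1, Matrix.mul_one]; simp only [Matrix.mul_assoc]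
      rw [h3, Matrix.charpoly_mul_comm, ← Matrix.mul_assoc, hV.1, Matrix.one_mul] at h2
      exact h2
  · rintro ⟨hs, v, hv, hT⟩
    refine ⟨dg a, rk v b₂ (b₁ - b₂), ?_, ⟨rk_herm v _ _, rk_charpoly v hv b₁ b₂⟩, hs, ?_, hT⟩
    · refine ⟨dg_isHermitian a, ?_⟩
      rw [dg, Matrix.charpoly_diagonal]
    · exact Matrix.isHermitian_conjTranspose_mul_self _

lemma wq_of_wp {a p : Fin (m + 1) → ℝ} {r : Fin m → ℝ} (h : ∀ t, wp a p t = ∏ l, (t - r l))
    (t : ℝ) : wq a p t = ∏ l, (t + r l) := by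
  have h1 := h (-t)
  unfold wp at h1
  unfold wq
  have h2 : ∀ f : Fin m → ℝ, ∏ l, (-t - f l) = (-1) ^ m * ∏ l, (t + f l) := by
    intro f
    have h3 : ∀ l, -t - f l = (-1) * (t + f l) := fun l => by ring
    simp only [h3]
    rw [Finset.prod_mul_distrib, Finset.prod_const, Finset.card_univ, Fintype.card_fin]
  rw [h2 r] at h1
  have h4 : ∑ i, p i * ∏ l, (-t - a (i.succAbove l)) =
      (-1) ^ m * ∑ i, p i * ∏ l, (t + a (i.succAbove l)) := by
    rw [Finset.mul_sum]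
    refine Finset.sum_congr rfl fun i _ => ?_
    rw [h2 (fun l => a (i.succAbove l))]
    ring
  rw [h4] at h1
  exact mul_left_cancel₀ (pow_ne_zero m (by norm_num)) h1

theorem main (a : Fin (m + 1) → ℝ) (ha : Antitone a) (b₁ b₂ : ℝ) (s : Fin (m + 1) → ℝ) :
    Realizable a (Fin.cons b₁ (fun _ => b₂)) s ↔ (∀ i, 0 ≤ s i) ∧ ∃ r : Fin m → ℝ,
      (∀ l : Fin m, a l.succ ≤ r l ∧ r l ≤ a l.castSucc) ∧
      ∀ t : ℝ, t ^ 2 * ∏ i, (t ^ 2 + b₂ ^ 2 - s i ^ 2) =
        (t ^ 2 + b₂ ^ 2) * ∏ i, (t ^ 2 - a i ^ 2) -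
        (b₂ * ∏ i, (t - a i) + (b₁ - b₂) * t * ∏ l, (t - r l)) *
          (b₂ * ∏ i, (t + a i) + (b₁ - b₂) * t * ∏ l, (t + r l)) := by
  have h0 := realizable_iff a b₁ b₂ s
  rw [show Realizable a (Fin.cons b₁ (fun _ => b₂)) s = Realizable a (bb b₁ b₂) s from rfl, h0]
  constructor
  · rintro ⟨hs, v, hv, hT⟩
    refine ⟨hs, ?_⟩
    set p : Fin (m + 1) → ℝ := fun i => ‖v i‖ ^ 2 with hp
    have hpv : ∀ i, star (v i) * v i = (p i : ℂ) := by
      intro i
      rw [hp]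
      have := Complex.conj_mul' (v i)
      simp only
      push_cast
      exact this
    have hpS : p ∈ stdSimplex ℝ (Fin (m + 1)) := by
      refine ⟨fun i => by rw [hp]; positivity, ?_⟩
      have h1 : ((∑ i, p i : ℝ) : ℂ) = 1 := by
        push_cast
        rw [← hv]
        exact Finset.sum_congr rfl fun i _ => (hpv i).symm
      exact_mod_cast h1
    obtain ⟨r, hr, hr2⟩ := inter_of_weights ha hpS
    refine ⟨r, hr, fun t => ?_⟩
    have h2 := (char_iff a v p b₂ (b₁ - b₂) hv hpv s).1 hT t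
    rw [h2]
    unfold rhs
    rw [hr2, wq_of_wp hr2]
  · rintro ⟨hs, r, hr, hid⟩
    refine ⟨hs, ?_⟩
    obtain ⟨p, hp, hpr⟩ := weights_of_inter ha hr
    set v : Fin (m + 1) → ℂ := fun i => ((Real.sqrt (p i) : ℝ) : ℂ) with hv
    have hpv : ∀ i, star (v i) * v i = (p i : ℂ) := by
      intro i
      have h1 : star (v i) = v i := Complex.conj_ofReal _
      rw [h1, hv]
      simp only
      rw [← Complex.ofReal_mul, Real.mul_self_sqrt (hp.1 i)]
    have hvs : ∑ i, star (v i) * v i = 1 := by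
      simp only [hpv]
      rw [← Complex.ofReal_sum, hp.2, Complex.ofReal_one]
    refine ⟨v, hvs, (char_iff a v p b₂ (b₁ - b₂) hvs hpv s).2 fun t => ?_⟩
    rw [hid t]
    unfold rhs
    rw [hpr, wq_of_wp hpr]

/-- `A` and `B` may be exchanged. -/
lemma realizable_symm {n : ℕ} {a b s : Fin n → ℝ} (h : Realizable a b s) : Realizable b a s := by
  obtain ⟨A, B, hA, hB, hs, hT⟩ := h
  refine ⟨B, A, hB, hA, hs, ?_⟩
  have h1 : (B + Complex.I • A)ᴴ * (B + Complex.I • A) =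
      (A + Complex.I • B) * (A + Complex.I • B)ᴴ := by
    have hA' : Aᴴ = A := hA.1
    have hB' : Bᴴ = B := hB.1
    have hI : star Complex.I = -Complex.I := Complex.conj_I
    have e : B + Complex.I • A = Complex.I • (A + Complex.I • B)ᴴ := by
      rw [conjTranspose_add, conjTranspose_smul, hA', hB', hI, smul_add, smul_smul, mul_neg,
        Complex.I_mul_I, neg_neg, one_smul, add_comm]
    rw [e, conjTranspose_smul, conjTranspose_conjTranspose, Matrix.smul_mul, Matrix.mul_smul,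
      smul_smul, hI, neg_mul, Complex.I_mul_I, neg_neg, one_smul]
  refine ⟨Matrix.isHermitian_conjTranspose_mul_self _, ?_⟩
  rw [h1, Matrix.charpoly_mul_comm]
  exact hT.2

/-- the case `b₂ = 0` -/
theorem rank_one (a : Fin (m + 1) → ℝ) (ha : Antitone a) (b₁ : ℝ) (s : Fin (m + 1) → ℝ) :
    Realizable a (Fin.cons b₁ (fun _ => 0)) s ↔ (∀ i, 0 ≤ s i) ∧ ∃ r : Fin m → ℝ,
      (∀ l : Fin m, a l.succ ≤ r l ∧ r l ≤ a l.castSucc) ∧
      ∀ z : ℝ, ∏ i, (z - s i ^ 2) = ∏ i, (z - a i ^ 2) - b₁ ^ 2 * ∏ l, (z - r l ^ 2) := by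
  rw [main a ha b₁ 0 s]
  refine and_congr_right fun _ => exists_congr fun r => and_congr_right fun _ => ?_
  have hprod : ∀ t : ℝ, (∏ l, (t - r l)) * (∏ l, (t + r l)) = ∏ l, (t ^ 2 - r l ^ 2) := by
    intro t
    rw [← Finset.prod_mul_distrib]
    exact Finset.prod_congr rfl fun l _ => by ring
  constructor
  · intro h
    have hpoly : (∏ i, (Polynomial.X - Polynomial.C (s i ^ 2))) =
        (∏ i, (Polynomial.X - Polynomial.C (a i ^ 2))) -
          Polynomial.C (b₁ ^ 2) * ∏ l, (Polynomial.X - Polynomial.C (r l ^ 2)) := by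
      apply Polynomial.eq_of_infinite_eval_eq
      have hinf : (Set.Ioi (0 : ℝ)).Infinite := Set.Ioi_infinite 0
      refine hinf.mono fun z hz => ?_
      have hz' : (0 : ℝ) < z := hz
      set t := Real.sqrt z with ht
      have ht2 : t ^ 2 = z := Real.sq_sqrt hz'.le
      have h1 := h t
      have h2 : z * ∏ i, (z - s i ^ 2) =
          z * (∏ i, (z - a i ^ 2) - b₁ ^ 2 * ∏ l, (z - r l ^ 2)) := by
        have h3 := hprod t
        rw [ht2] at h1 h3
        have h4 : z * ∏ i, (z + 0 ^ 2 - s i ^ 2) = (z + 0 ^ 2) * ∏ i, (z - a i ^ 2) -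
            b₁ ^ 2 * t ^ 2 * ((∏ l, (t - r l)) * ∏ l, (t + r l)) := by
          rw [h1]; ring
        rw [h3, ht2] at h4
        have h5 : ∀ i, z + 0 ^ 2 - s i ^ 2 = z - s i ^ 2 := fun i => by ring
        simp only [h5] at h4
        rw [h4]; ring
      show _ = _
      rw [Polynomial.eval_prod, Polynomial.eval_sub, Polynomial.eval_mul, Polynomial.eval_prod,
        Polynomial.eval_prod]
      simp only [Polynomial.eval_sub, Polynomial.eval_X, Polynomial.eval_C]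
      exact mul_left_cancel₀ hz'.ne' h2
    intro z
    have h1 := congrArg (Polynomial.eval z) hpoly
    rw [Polynomial.eval_prod, Polynomial.eval_sub, Polynomial.eval_mul, Polynomial.eval_prod,
      Polynomial.eval_prod] at h1
    simpa only [Polynomial.eval_sub, Polynomial.eval_X, Polynomial.eval_C] using h1
  · intro h t
    have h1 := h (t ^ 2)
    have h5 : ∀ i, t ^ 2 + 0 ^ 2 - s i ^ 2 = t ^ 2 - s i ^ 2 := fun i => by ring
    simp only [h5]
    rw [h1, ← hprod t]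
    ring

end Pool.Agent.CRO
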