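import Pool.Agent.CRO.Det

/-!
Realizable triples when `B` is a scalar plus a matrix of rank one.
-/

set_option autoImplicit false

open Finset Matrix

namespace Pool.Agent.CRO

open Pool.Agent.Helper44.Cart Pool.Agent.Helper69.Cart

variable {m : ℕ}

/-- `∑ p i ∏_{j ≠ i} (t + a j)` -/
noncomputable def wq (a p : Fin (m + 1) → ℝ) (t : ℝ) : ℝ :=
  ∑ i, p i * ∏ l : Fin m, (t + a (i.succAbove l))

/-- the right-hand side -/
noncomputable def rhs (a p : Fin (m + 1) → ℝ) (β₀ β t : ℝ) : ℝ :=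
  (t ^ 2 + β₀ ^ 2) * ∏ i, (t ^ 2 - a i ^ 2) -
    (β₀ * ∏ i, (t - a i) + β * t * wp a p t) * (β₀ * ∏ i, (t + a i) + β * t * wq a p t)

lemma wp_eq (a p : Fin (m + 1) → ℝ) (t : ℝ) (ht : ∀ i, t ^ 2 - a i ^ 2 ≠ 0) :
    wp a p t = (∏ i, (t - a i)) * (t * (∑ i, p i / (t ^ 2 - a i ^ 2)) +
      ∑ i, p i * a i / (t ^ 2 - a i ^ 2)) := by
  unfold wp
  rw [Finset.mul_sum, ← Finset.sum_add_distrib, Finset.mul_sum]
  refine Finset.sum_congr rfl fun i _ => ?_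
  rw [Fin.prod_univ_succAbove _ i]
  have h : t ^ 2 - a i ^ 2 = (t - a i) * (t + a i) := by ring
  have h1 : (t - a i) ≠ 0 := fun h0 => ht i (by rw [h, h0, zero_mul])
  have h2 : (t + a i) ≠ 0 := fun h0 => ht i (by rw [h, h0, mul_zero])
  rw [h]
  field_simp

lemma wq_eq (a p : Fin (m + 1) → ℝ) (t : ℝ) (ht : ∀ i, t ^ 2 - a i ^ 2 ≠ 0) :
    wq a p t = (∏ i, (t + a i)) * (t * (∑ i, p i / (t ^ 2 - a i ^ 2)) -
      ∑ i, p i * a i / (t ^ 2 - a i ^ 2)) := by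
  unfold wq
  rw [Finset.mul_sum, ← Finset.sum_sub_distrib, Finset.mul_sum]
  refine Finset.sum_congr rfl fun i _ => ?_
  rw [Fin.prod_univ_succAbove _ i]
  have h : t ^ 2 - a i ^ 2 = (t - a i) * (t + a i) := by ring
  have h1 : (t - a i) ≠ 0 := fun h0 => ht i (by rw [h, h0, zero_mul])
  have h2 : (t + a i) ≠ 0 := fun h0 => ht i (by rw [h, h0, mul_zero])
  rw [h]
  field_simp

lemma rhs_eq (a p : Fin (m + 1) → ℝ) (β₀ β t : ℝ) (ht : ∀ i, t ^ 2 - a i ^ 2 ≠ 0) :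
    rhs a p β₀ β t = t ^ 2 * ((∏ i, (t ^ 2 - a i ^ 2)) *
      (1 - 2 * β₀ * β * (∑ i, p i / (t ^ 2 - a i ^ 2)) +
        β ^ 2 * ((∑ i, p i * a i / (t ^ 2 - a i ^ 2)) ^ 2 -
          t ^ 2 * (∑ i, p i / (t ^ 2 - a i ^ 2)) ^ 2))) := by
  have h : ∏ i, (t ^ 2 - a i ^ 2) = (∏ i, (t - a i)) * ∏ i, (t + a i) := by
    rw [← Finset.prod_mul_distrib]
    exact Finset.prod_congr rfl fun i _ => by ring
  unfold rhs
  rw [wp_eq a p t ht, wq_eq a p t ht, h]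
  ring

/-- the set of good points -/
def Good (a : Fin (m + 1) → ℝ) (t : ℝ) : Prop := t ≠ 0 ∧ ∀ i, t ^ 2 - a i ^ 2 ≠ 0

lemma good_compl_finite (a : Fin (m + 1) → ℝ) : {t | ¬ Good a t}.Finite := by
  have h1 : {t : ℝ | ¬ Good a t} ⊆ {0} ∪ ⋃ i, {a i, - a i} := by
    intro t ht
    unfold Good at ht
    by_cases h0 : t = 0
    · exact Or.inl h0
    · right
      have h2 : ∃ i, t ^ 2 - a i ^ 2 = 0 := by
        by_contra hcon
        push Not at hcon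
        exact ht ⟨h0, hcon⟩
      obtain ⟨i, hi⟩ := h2
      rw [Set.mem_iUnion]
      refine ⟨i, ?_⟩
      have h3 : (t - a i) * (t + a i) = 0 := by linear_combination hi
      rcases mul_eq_zero.1 h3 with h4 | h4
      · left; linarith
      · right; rw [Set.mem_singleton_iff]; linarith
  refine Set.Finite.subset ?_ h1
  refine (Set.finite_singleton 0).union (Set.finite_iUnion fun i => ?_)
  exact (Set.finite_singleton _).insert _

lemma good_dense (a : Fin (m + 1) → ℝ) : Dense {t | Good a t} := by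
  have h := (good_compl_finite a).countable.dense_compl ℝ
  have h2 : {t | ¬ Good a t}ᶜ = {t | Good a t} := by
    ext t; simp
  rwa [h2] at h

lemma charpoly_eval (a : Fin (m + 1) → ℝ) (v : Fin (m + 1) → ℂ) (p : Fin (m + 1) → ℝ)
    (β₀ β : ℝ) (hv : ∑ i, star (v i) * v i = 1) (hp : ∀ i, star (v i) * v i = (p i : ℂ))
    (t : ℝ) (ht : Good a t) :
    (t : ℂ) ^ 2 * (((TT a v β₀ β)ᴴ * TT a v β₀ β).charpoly.eval (((t ^ 2 + β₀ ^ 2 : ℝ)) : ℂ)) =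
      ((rhs a p β₀ β t : ℝ) : ℂ) := by
  have ht' : ∀ i, (t : ℂ) ^ 2 - (a i : ℂ) ^ 2 ≠ 0 := by
    intro i h
    apply ht.2 i
    have h2 : ((t ^ 2 - a i ^ 2 : ℝ) : ℂ) = 0 := by push_cast; exact h
    exact_mod_cast h2
  rw [Matrix.eval_charpoly, Matrix.scalar_apply, ← Matrix.smul_one_eq_diagonal]
  have h1 := det_formula a v β₀ β hv (t : ℂ) ht'
  have h2 : (((t ^ 2 + β₀ ^ 2 : ℝ)) : ℂ) = (t : ℂ) ^ 2 + (β₀ : ℂ) ^ 2 := by push_cast; ring
  rw [h2, h1, rhs_eq a p β₀ β t ht.2]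
  simp only [hp]
  push_cast
  ring

lemma rhs_cont (a p : Fin (m + 1) → ℝ) (β₀ β : ℝ) : Continuous (rhs a p β₀ β) := by
  unfold rhs wp wq
  fun_prop

lemma char_iff (a : Fin (m + 1) → ℝ) (v : Fin (m + 1) → ℂ) (p : Fin (m + 1) → ℝ)
    (β₀ β : ℝ) (hv : ∑ i, star (v i) * v i = 1) (hp : ∀ i, star (v i) * v i = (p i : ℂ))
    (s : Fin (m + 1) → ℝ) :
    ((TT a v β₀ β)ᴴ * TT a v β₀ β).charpoly =
        ∏ i, (Polynomial.X - Polynomial.C ((s i ^ 2 : ℝ) : ℂ)) ↔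
      ∀ t : ℝ, t ^ 2 * ∏ i, (t ^ 2 + β₀ ^ 2 - s i ^ 2) = rhs a p β₀ β t := by
  have hprod : ∀ t : ℝ, (∏ i, (Polynomial.X - Polynomial.C ((s i ^ 2 : ℝ) : ℂ))).eval
      (((t ^ 2 + β₀ ^ 2 : ℝ)) : ℂ) = ((∏ i, (t ^ 2 + β₀ ^ 2 - s i ^ 2) : ℝ) : ℂ) := by
    intro t
    rw [Polynomial.eval_prod]
    push_cast
    refine Finset.prod_congr rfl fun i _ => ?_
    simp
  constructor
  · intro h
    have hc : Continuous fun t : ℝ => t ^ 2 * ∏ i, (t ^ 2 + β₀ ^ 2 - s i ^ 2) := by fun_prop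
    have heq := Continuous.ext_on (good_dense a) hc (rhs_cont a p β₀ β) (by
      intro t ht
      have h1 := charpoly_eval a v p β₀ β hv hp t ht
      rw [h, hprod t] at h1
      show t ^ 2 * ∏ i, (t ^ 2 + β₀ ^ 2 - s i ^ 2) = rhs a p β₀ β t
      exact_mod_cast h1)
    intro t
    exact congrFun heq t
  · intro h
    apply Polynomial.eq_of_infinite_eval_eq
    -- infinitely many good positive `t`
    have hinf : ({t | Good a t} ∩ Set.Ioi (0 : ℝ)).Infinite := by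
      have h1 : (Set.Ioi (0 : ℝ)).Infinite := Set.Ioi_infinite 0
      have h2 := h1.sdiff (good_compl_finite a)
      refine h2.mono ?_
      rintro t ⟨ht1, ht2⟩
      exact ⟨by simpa using ht2, ht1⟩
    have hinj : Set.InjOn (fun t : ℝ => (((t ^ 2 + β₀ ^ 2 : ℝ)) : ℂ))
        ({t | Good a t} ∩ Set.Ioi (0 : ℝ)) := by
      rintro x ⟨_, hx⟩ y ⟨_, hy⟩ hxy
      have hxy2 : (((x ^ 2 + β₀ ^ 2 : ℝ)) : ℂ) = (((y ^ 2 + β₀ ^ 2 : ℝ)) : ℂ) := hxy
      have hxy' : x ^ 2 + β₀ ^ 2 = y ^ 2 + β₀ ^ 2 := Complex.ofReal_injective hxy2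
      have hx' : 0 < x := hx
      have hy' : 0 < y := hy
      have h3 : x ^ 2 = y ^ 2 := by linarith
      exact (pow_left_inj₀ hx'.le hy'.le two_ne_zero).1 h3
    refine (hinf.image hinj).mono ?_
    rintro _ ⟨t, ⟨ht, _⟩, rfl⟩
    show _ = _
    have h1 := charpoly_eval a v p β₀ β hv hp t ht
    rw [← h t] at h1
    have ht0 : (t : ℂ) ^ 2 ≠ 0 := pow_ne_zero _ (by exact_mod_cast ht.1)
    apply mul_left_cancel₀ ht0
    rw [hprod t]
    push_cast at h1 ⊢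
    exact h1

end Pool.Agent.CRO
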